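import Pool.Agent.W555.KS.Defs2

/-! # Project KS: `StG2` -/

set_option autoImplicit false

namespace Pool.Agent.W304.KS

open Finset MvPolynomial Pool.Agent.W555.KS

/-- product of all minors of size `r` of the generic matrix -/
noncomputable def minorsProd (k : Type) [Field k] (n r : ℕ) : MvPolynomial (Fin n × Fin n) k :=
  by
    classical
    exact ∏ p ∈ (univ : Finset ((Fin r → Fin n) × (Fin r → Fin n))).filter
      (fun p => Function.Injective p.1 ∧ Function.Injective p.2),
    Matrix.det (Matrix.of (fun s t : Fin r => (X (p.1 s, p.2 t) : MvPolynomial (Fin n × Fin n) k)))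

theorem minorsProd_ne_zero (k : Type) [Field k] (n r : ℕ) : minorsProd k n r ≠ 0 := by
  classical
  unfold minorsProd
  refine Finset.prod_ne_zero_iff.2 ?_
  intro p hp
  obtain ⟨h1, h2⟩ := (Finset.mem_filter.1 hp).2
  intro h0
  have h3 := congrArg (eval (fun q : Fin n × Fin n =>
    if ∃ s, p.1 s = q.1 ∧ p.2 s = q.2 then (1:k) else 0)) h0
  rw [map_zero, RingHom.map_det] at h3
  have e : (eval (fun q : Fin n × Fin n =>
      if ∃ s, p.1 s = q.1 ∧ p.2 s = q.2 then (1:k) else 0)).mapMatrix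
      (Matrix.of (fun s t : Fin r => (X (p.1 s, p.2 t) : MvPolynomial (Fin n × Fin n) k))) = 1 := by
    ext s t
    simp only [RingHom.mapMatrix_apply, Matrix.map_apply, Matrix.of_apply, eval_X,
      Matrix.one_apply]
    by_cases hst : s = t
    · subst hst
      rw [if_pos ⟨s, rfl, rfl⟩, if_pos rfl]
    · rw [if_neg, if_neg hst]
      rintro ⟨u, hu1, hu2⟩
      exact hst ((h1 hu1).symm.trans (h2 hu2))
  rw [e, Matrix.det_one] at h3
  exact one_ne_zero h3

theorem minor_ne_zero {k : Type} [Field k] {n r : ℕ} {g : Fin n × Fin n → k}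
    (hF : eval g (minorsProd k n r) ≠ 0) (f h : Fin r → Fin n) (hf : Function.Injective f)
    (hh : Function.Injective h) : (Matrix.of (fun s t : Fin r => g (f s, h t))).det ≠ 0 := by
  classical
  unfold minorsProd at hF
  rw [map_prod, Finset.prod_ne_zero_iff] at hF
  have := hF (f, h) (Finset.mem_filter.2 ⟨Finset.mem_univ _, hf, hh⟩)
  rw [RingHom.map_det] at this
  intro h0
  apply this
  rw [← h0]
  congr 1
  ext s t
  simp

/-- a vector supported exactly on `σ` killed by the last `|σ| - 1` rows -/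
theorem exists_c {k : Type} [Field k] {n j : ℕ} {g : Fin n × Fin n → k}
    (hF : eval g (minorsProd k n (j - 1)) ≠ 0) (σ : Finset (Fin n)) (hσ : σ.card = j) :
    ∃ c : Fin n → k, (∀ v, c v ≠ 0 ↔ v ∈ σ) ∧
      ∀ i : Fin n, n < i + j → ∑ v, g (i, v) * c v = 0 := by
  classical
  rcases Nat.eq_zero_or_pos j with hj | hj
  · subst hj
    refine ⟨0, fun v => ?_, fun i hi => by simp⟩
    rw [Finset.card_eq_zero.1 hσ]; simp
  obtain ⟨j', rfl⟩ : ∃ j', j = j' + 1 := ⟨j - 1, by omega⟩
  simp only [Nat.add_sub_cancel] at hF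
  have hjn : j' + 1 ≤ n := by
    have := Finset.card_le_univ σ
    simpa [hσ] using this
  let f : Fin j' → Fin n := fun s => ⟨n - j' + s, by omega⟩
  have hf : Function.Injective f := by
    intro s t h
    have := congrArg Fin.val h
    simp only [f] at this
    exact Fin.ext (by omega)
  let e : Fin (j' + 1) → Fin n := σ.orderEmbOfFin hσ
  have he : Function.Injective e := (σ.orderEmbOfFin hσ).injective
  have her : ∀ v, v ∈ σ ↔ ∃ t, e t = v := by
    intro v
    have := Finset.range_orderEmbOfFin σ hσ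
    have h2 : v ∈ Set.range (σ.orderEmbOfFin hσ) ↔ v ∈ (σ : Set (Fin n)) := by rw [this]
    exact ⟨fun h => h2.2 h, fun h => h2.1 h⟩
  have hker : LinearMap.ker (Matrix.mulVecLin (Matrix.of (fun (s : Fin j') (t : Fin (j' + 1)) =>
      g (f s, e t)))) ≠ ⊥ := by
    apply LinearMap.ker_ne_bot_of_finrank_lt
    simp
  obtain ⟨c', hc', hc0⟩ := (Submodule.ne_bot_iff _).1 hker
  rw [LinearMap.mem_ker, Matrix.mulVecLin_apply] at hc'
  have hA : ∀ s, ∑ t, g (f s, e t) * c' t = 0 := by
    intro s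
    have := congrFun hc' s
    simpa [Matrix.mulVec, dotProduct] using this
  have hne : ∀ t, c' t ≠ 0 := by
    intro t0 h0
    apply hc0
    have hdet := minor_ne_zero hF f (e ∘ t0.succAbove) hf
      (he.comp (Fin.succAbove_right_injective))
    have hz : (c' ∘ t0.succAbove) = 0 := by
      apply Matrix.eq_zero_of_mulVec_eq_zero hdet
      ext s
      have := hA s
      rw [Fin.sum_univ_succAbove _ t0, h0, mul_zero, zero_add] at this
      simpa [Matrix.mulVec, dotProduct] using this
    ext t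
    by_cases ht : t = t0
    · rw [ht, h0]; rfl
    · obtain ⟨u, rfl⟩ := Fin.exists_succAbove_eq ht
      exact congrFun hz u
  refine ⟨fun v => ∑ t, if e t = v then c' t else 0, ?_, ?_⟩
  · intro v
    rw [her]
    dsimp only
    constructor
    · intro h
      by_contra hcon
      apply h
      apply Finset.sum_eq_zero
      intro t _
      rw [if_neg]
      exact fun h => hcon ⟨t, h⟩
    · rintro ⟨t, rfl⟩
      rw [Finset.sum_eq_single t]
      · rw [if_pos rfl]; exact hne t
      · intro b _ hb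
        rw [if_neg]
        exact fun h => hb (he h)
      · intro h; exact absurd (Finset.mem_univ _) h
  · intro i hi
    have hi' : ∃ s : Fin j', f s = i := by
      refine ⟨⟨i - (n - j'), by omega⟩, ?_⟩
      apply Fin.ext
      simp only [f]
      omega
    obtain ⟨s, rfl⟩ := hi'
    refine Eq.trans ?_ (hA s)
    simp only [Finset.mul_sum]
    rw [Finset.sum_comm]
    apply Finset.sum_congr rfl
    intro t _
    rw [Finset.sum_eq_single (e t)]
    · rw [if_pos rfl]
    · intro b _ hb
      rw [if_neg (fun h => hb h.symm), mul_zero]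
    · intro h; exact absurd (Finset.mem_univ _) h

theorem RevLT.trans' {n : ℕ} {a b c : Fin n →₀ ℕ} (hab : a.degree = b.degree)
    (hbc : b.degree = c.degree) (h1 : RevLT a b) (h2 : RevLT b c) : RevLT a c := by
  rcases h1 with h1 | ⟨-, j1, h1, h1'⟩
  · exact absurd hab h1.ne
  rcases h2 with h2 | ⟨-, j2, h2, h2'⟩
  · exact absurd hbc h2.ne
  right
  refine ⟨hab.trans hbc, ?_⟩
  rcases lt_trichotomy j1 j2 with h | h | h
  · refine ⟨j2, ?_, ?_⟩
    · rw [h1' j2 h]; exact h2
    · intro i hi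
      rw [h1' i (h.trans hi), h2' i hi]
  · subst h
    refine ⟨j1, h2.trans h1, ?_⟩
    intro i hi
    rw [h1' i hi, h2' i hi]
  · refine ⟨j1, ?_, ?_⟩
    · rw [← h2' j1 h]; exact h1
    · intro i hi
      rw [h1' i hi, h2' i (h.trans hi)]

theorem RevLT.irrefl' {n : ℕ} {a : Fin n →₀ ℕ} : ¬ RevLT a a := by
  rintro (h | ⟨-, j, h, -⟩)
  · exact lt_irrefl _ h
  · exact lt_irrefl _ h

/-- well-founded induction on the monomials of degree `j` -/
theorem revLT_induction {n j : ℕ} (P : (Fin n →₀ ℕ) → Prop)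
    (h : ∀ m : Fin n →₀ ℕ, m.degree = j → (∀ m', m'.degree = j → RevLT m' m → P m') → P m) :
    ∀ m : Fin n →₀ ℕ, m.degree = j → P m := by
  have hfin : Finite {m : Fin n →₀ ℕ // m.degree = j} := Finsupp.finite_of_degree_eq j
  let r : {m : Fin n →₀ ℕ // m.degree = j} → {m : Fin n →₀ ℕ // m.degree = j} → Prop :=
    fun a b => RevLT a.1 b.1
  have : IsTrans _ r := ⟨fun a b c hab hbc =>
    RevLT.trans' (a.2.trans b.2.symm) (b.2.trans c.2.symm) hab hbc⟩
  have : Std.Irrefl r := ⟨fun a h => RevLT.irrefl' h⟩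
  have wf : WellFounded r := Finite.wellFounded_of_trans_of_irrefl r
  have key : ∀ x : {m : Fin n →₀ ℕ // m.degree = j}, P x.1 := by
    intro x
    induction x using wf.induction with
    | _ x ih =>
      exact h x.1 x.2 (fun m' hm' hlt => ih ⟨m', hm'⟩ hlt)
  exact fun m hm => key ⟨m, hm⟩

/-- the curve `t ↦ t c` as an algebra map -/
noncomputable def ev {k : Type} [Field k] {n : ℕ} (c : Fin n → k) :
    MvPolynomial (Fin n) k →ₐ[k] Polynomial k :=
  aeval (fun v => Polynomial.C (c v) * Polynomial.X)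

theorem ev_prod {k : Type} [Field k] {n : ℕ} (c : Fin n → k) (τ : Finset (Fin n)) :
    ev c (∏ v ∈ τ, X v) = Polynomial.C (∏ v ∈ τ, c v) * Polynomial.X ^ τ.card := by
  unfold ev
  rw [map_prod]
  simp only [aeval_X]
  rw [Finset.prod_mul_distrib, Finset.prod_const, map_prod]

theorem ev_srI {k : Type} [Field k] {n : ℕ} (c : Fin n → k) (K : Finset (Finset (Fin n)))
    (hK : IsCx K) (σ : Finset (Fin n)) (hσ : σ ∈ K) (hc : ∀ v, c v ≠ 0 → v ∈ σ)
    (p : MvPolynomial (Fin n) k) (hp : p ∈ srI k K) : ev c p = 0 := by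
  have : srI k K ≤ RingHom.ker (ev c) := by
    unfold srI
    rw [Ideal.span_le]
    rintro _ ⟨τ, hτ, rfl⟩
    show ev c _ = 0
    rw [ev_prod]
    have : ∏ v ∈ τ, c v = 0 := by
      by_contra hne
      replace hne := Finset.prod_ne_zero_iff.1 hne
      exact hτ (hK.2 σ hσ τ (fun v hv => hc v (hne v hv)))
    rw [this, Polynomial.C_0, zero_mul]
  exact this hp

theorem ev_lf {k : Type} [Field k] {n : ℕ} (c a : Fin n → k) :
    ev c (lf a) = Polynomial.C (∑ v, a v * c v) * Polynomial.X := by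
  unfold ev lf
  rw [map_sum, map_sum, Finset.sum_mul]
  apply Finset.sum_congr rfl
  intro v _
  rw [map_mul, aeval_X, map_mul, ← algebraMap_eq, AlgHom.commutes, Polynomial.algebraMap_eq,
    mul_assoc]

theorem ev_monomial {k : Type} [Field k] {n : ℕ} (c : Fin n → k) (g : Fin n × Fin n → k)
    (m : Fin n →₀ ℕ) :
    ev c (subst g (monomial m 1)) =
      Polynomial.C (∏ i, (∑ v, g (i, v) * c v) ^ m i) * Polynomial.X ^ m.degree := by
  rw [monomial_eq, C_1, one_mul, Finsupp.prod_fintype _ _ (fun i => pow_zero _), map_prod, map_prod]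
  have h1 : ∀ i, ev c (subst g (X i ^ m i)) =
      Polynomial.C ((∑ v, g (i, v) * c v) ^ m i) * Polynomial.X ^ m i := by
    intro i
    rw [map_pow, map_pow]
    have : subst g (X i) = lf (fun j => g (i, j)) := by
      unfold subst; rw [aeval_X]
    rw [this, ev_lf, mul_pow, ← Polynomial.C_pow]
  rw [Finset.prod_congr rfl (fun i _ => h1 i), Finset.prod_mul_distrib, ← map_prod,
    Finset.prod_pow_eq_pow_sum, Finsupp.degree_eq_sum]

theorem subst_surj {k : Type} [Field k] {n : ℕ} (g : Fin n × Fin n → k)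
    (hg : (Matrix.of (fun i j => g (i, j))).det ≠ 0) (p : MvPolynomial (Fin n) k) :
    ∃ q, subst g q = p := by
  classical
  have h : (subst g).range = ⊤ := by
    rw [← top_le_iff, ← adjoin_range_X (σ := Fin n) (R := k), Algebra.adjoin_le_iff]
    rintro _ ⟨j, rfl⟩
    rw [SetLike.mem_coe, AlgHom.mem_range]
    let h := (Matrix.of (fun i j => g (i, j)))⁻¹
    have hh : h * Matrix.of (fun i j => g (i, j)) = 1 :=
      Matrix.nonsing_inv_mul _ (isUnit_iff_ne_zero.2 hg)
    refine ⟨∑ i, C (h j i) * X i, ?_⟩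
    have h1 : subst g (∑ i, C (h j i) * X i) = ∑ i, C (h j i) * lf (fun v => g (i, v)) := by
      rw [map_sum]
      apply Finset.sum_congr rfl
      intro i _
      rw [map_mul]
      unfold subst
      rw [aeval_X, ← algebraMap_eq, AlgHom.commutes]
    rw [h1]
    unfold lf
    simp only [Finset.mul_sum, ← mul_assoc, ← C_mul]
    rw [Finset.sum_comm]
    simp only [← Finset.sum_mul, ← map_sum]
    have h2 : ∀ v, ∑ i, h j i * g (i, v) = if j = v then 1 else 0 := by
      intro v
      have := congrFun (congrFun hh j) v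
      rw [Matrix.mul_apply, Matrix.one_apply] at this
      simpa using this
    simp [h2]
  have : p ∈ (subst g).range := by rw [h]; trivial
  exact this

theorem main {k : Type} [Field k] {n j : ℕ} (K : Finset (Finset (Fin n))) (hK : IsCx K)
    (g : Fin n × Fin n → k) (hg : (Matrix.of (fun i j => g (i, j))).det ≠ 0)
    (c : Finset (Fin n) → Fin n → k)
    (hc : ∀ σ ∈ K, σ.card = j → (∀ v, c σ v ≠ 0 ↔ v ∈ σ) ∧
      ∀ i : Fin n, n < i + j → ∑ v, g (i, v) * c σ v = 0) :
    (K.filter (fun σ => σ.card = j)).card ≤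
      {m : Fin n →₀ ℕ | m.degree = j ∧ (∀ i ∈ m.support, (i : ℕ) + j ≤ n) ∧
        m ∉ inSet (coordI g (srI k K))}.ncard := by
  classical
  set S : Set (Fin n →₀ ℕ) := {m : Fin n →₀ ℕ | m.degree = j ∧ (∀ i ∈ m.support, (i : ℕ) + j ≤ n) ∧
        m ∉ inSet (coordI g (srI k K))} with hS
  have hSfin : S.Finite := (Finsupp.finite_of_degree_eq j).subset (fun m hm => hm.1)
  let Φ : MvPolynomial (Fin n) k →ₗ[k] ({σ // σ ∈ K.filter (fun σ => σ.card = j)} → k) :=
    LinearMap.pi (fun σ => (Polynomial.lcoeff k j) ∘ₗ (ev (c σ.1)).toLinearMap)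
  have hΦ : ∀ p σ, Φ p σ = (ev (c σ.1) p).coeff j := fun p σ => rfl
  have hmem : ∀ σ : {σ // σ ∈ K.filter (fun σ => σ.card = j)}, σ.1 ∈ K ∧ σ.1.card = j :=
    fun σ => Finset.mem_filter.1 σ.2
  let b : (Fin n →₀ ℕ) → ({σ // σ ∈ K.filter (fun σ => σ.card = j)} → k) :=
    fun m => Φ (subst g (monomial m 1))
  -- other degrees vanish
  have hdeg : ∀ m : Fin n →₀ ℕ, m.degree ≠ j → b m = 0 := by
    intro m hm
    ext σ
    show Φ _ σ = 0
    rw [hΦ, ev_monomial, Polynomial.coeff_C_mul, Polynomial.coeff_X_pow, if_neg (Ne.symm hm),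
      mul_zero]
  have hsupp : ∀ m : Fin n →₀ ℕ, (∃ i ∈ m.support, n < (i : ℕ) + j) → b m = 0 := by
    rintro m ⟨i, hi, hij⟩
    ext σ
    show Φ _ σ = 0
    rw [hΦ, ev_monomial]
    have : ∏ i, (∑ v, g (i, v) * c σ.1 v) ^ m i = 0 := by
      apply Finset.prod_eq_zero (Finset.mem_univ i)
      rw [(hc σ.1 (hmem σ).1 (hmem σ).2).2 i hij]
      exact zero_pow (Finsupp.mem_support_iff.1 hi)
    rw [this, Polynomial.C_0, zero_mul, Polynomial.coeff_zero]
  let V : Submodule k ({σ // σ ∈ K.filter (fun σ => σ.card = j)} → k) :=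
    Submodule.span k (b '' S)
  have hI : ∀ f ∈ coordI g (srI k K), Φ (subst g f) = 0 := by
    intro f hf
    ext σ
    rw [hΦ, ev_srI (c σ.1) K hK σ.1 (hmem σ).1
      (fun v hv => ((hc σ.1 (hmem σ).1 (hmem σ).2).1 v).1 hv) _ hf]
    simp
  have hexp : ∀ f : MvPolynomial (Fin n) k,
      Φ (subst g f) = ∑ m ∈ f.support, coeff m f • b m := by
    intro f
    conv_lhs => rw [f.as_sum]
    rw [map_sum, map_sum]
    apply Finset.sum_congr rfl
    intro m _
    have : monomial m (coeff m f) = coeff m f • monomial m (1 : k) := by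
      rw [smul_monomial, smul_eq_mul, mul_one]
    rw [this, map_smul, map_smul]
  have hall' : ∀ m : Fin n →₀ ℕ, m.degree = j → b m ∈ V := by
    apply revLT_induction
    intro m hm ih
    by_cases h1 : ∃ i ∈ m.support, n < (i : ℕ) + j
    · rw [hsupp m h1]; exact V.zero_mem
    push Not at h1
    by_cases h2 : m ∈ inSet (coordI g (srI k K))
    · obtain ⟨f, hf, hfm, hlt⟩ := h2
      have h3 := hexp f
      rw [hI f hf, ← Finset.add_sum_erase _ _ (mem_support_iff.2 hfm)] at h3
      have h4 : coeff m f • b m ∈ V := by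
        rw [eq_neg_of_add_eq_zero_left h3.symm]
        apply V.neg_mem
        apply V.sum_mem
        intro m' hm'
        apply V.smul_mem
        by_cases hd : m'.degree = j
        · exact ih m' hd (hlt m' (Finset.mem_of_mem_erase hm') (Finset.ne_of_mem_erase hm'))
        · rw [hdeg m' hd]; exact V.zero_mem
      have h5 := V.smul_mem (coeff m f)⁻¹ h4
      rwa [smul_smul, inv_mul_cancel₀ hfm, one_smul] at h5
    · exact Submodule.subset_span ⟨m, ⟨hm, h1, h2⟩, rfl⟩
  have hall : ∀ m : Fin n →₀ ℕ, b m ∈ V := by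
    intro m
    by_cases hd : m.degree = j
    · exact hall' m hd
    · rw [hdeg m hd]; exact V.zero_mem
  have hVall : ∀ p, Φ p ∈ V := by
    intro p
    obtain ⟨q, rfl⟩ := subst_surj g hg p
    rw [hexp q]
    exact V.sum_mem (fun m _ => V.smul_mem _ (hall m))
  have hVtop : V = ⊤ := by
    rw [eq_top_iff]
    intro w _
    rw [pi_eq_sum_univ w]
    apply V.sum_mem
    intro σ _
    apply V.smul_mem
    have h1 := hVall (∏ v ∈ σ.1, X v)
    have h2 : (∏ v ∈ σ.1, c σ.1 v) ≠ 0 := by
      rw [Finset.prod_ne_zero_iff]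
      intro v hv
      exact ((hc σ.1 (hmem σ).1 (hmem σ).2).1 v).2 hv
    have h3 : Φ (∏ v ∈ σ.1, X v) = (∏ v ∈ σ.1, c σ.1 v) • (fun τ => if σ = τ then (1 : k) else 0) := by
      ext τ
      rw [hΦ, ev_prod, (hmem σ).2, Polynomial.coeff_C_mul, Polynomial.coeff_X_pow, if_pos rfl,
        mul_one, Pi.smul_apply, smul_eq_mul]
      by_cases h : σ = τ
      · subst h; rw [if_pos rfl, mul_one]
      · rw [if_neg h, mul_zero]
        by_contra hne
        replace hne := Finset.prod_ne_zero_iff.1 hne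
        have hsub : σ.1 ⊆ τ.1 := fun v hv =>
          ((hc τ.1 (hmem τ).1 (hmem τ).2).1 v).1 (hne v hv)
        exact h (Subtype.ext (Finset.eq_of_subset_of_card_le hsub
          (by rw [(hmem σ).2, (hmem τ).2])))
    rw [h3] at h1
    have h5 := V.smul_mem (∏ v ∈ σ.1, c σ.1 v)⁻¹ h1
    rwa [smul_smul, inv_mul_cancel₀ h2, one_smul] at h5
  have hfr : Module.finrank k V = (K.filter (fun σ => σ.card = j)).card := by
    rw [hVtop, finrank_top, Module.finrank_fintype_fun_eq_card, Fintype.card_coe]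
  rw [← hfr]
  haveI : Fintype (b '' S) := (hSfin.image b).fintype
  refine (finrank_span_le_card (R := k) (b '' S)).trans ?_
  rw [← Set.ncard_eq_toFinset_card']
  exact Set.ncard_image_le hSfin

theorem g2 : StG2 := by
  classical
  intro k _ _ n j K hK
  refine ⟨minorsProd k n (j - 1), minorsProd_ne_zero k n (j - 1), ?_⟩
  intro g hg hF
  have h : ∀ σ : Finset (Fin n), ∃ c : Fin n → k, σ.card = j → (∀ v, c v ≠ 0 ↔ v ∈ σ) ∧
      ∀ i : Fin n, n < i + j → ∑ v, g (i, v) * c v = 0 := by
    intro σ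
    by_cases hσ : σ.card = j
    · obtain ⟨c, hc⟩ := exists_c hF σ hσ
      exact ⟨c, fun _ => hc⟩
    · exact ⟨0, fun h => absurd h hσ⟩
  choose c hc using h
  exact main K hK g hg c (fun σ _ h => hc σ h)

end Pool.Agent.W304.KS
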